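import Pool.Agent.Y516.OJ.Final

set_option autoImplicit false

/-!
# Set intersection queries: nearly quadratic space, if one joint cell is read and its address may
depend on one half of the family

A family of `2 k` sets of total size at most `N` is preprocessed; it is given in two halves. The
memory has `s` cells of `w` bits, which may be *arbitrary* functions of the whole family, and in
addition an unlimited memory with arbitrary functions of the first half alone and of the second half
alone. A query names a set `i` of the first half and a set `j` of the second half. One of the `s`
joint cells is read; its address may be an *arbitrary* function of `i`, of `j`, of the whole first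
half and of public random bits. Then the query is answered by an arbitrary communication protocol of
at most `b` bits between the two halves; for instance, `T` adaptive probes of cells of the one-sided
memory are such a protocol with `b = w T`. If the structure decides with error probability at most
`1 / (2 * 10 ^ 6)` whether the two sets intersect, then

  `N ^ 2 ≤ 10 ^ 20 * (b + l) ^ 2 * w ^ 3 * s`, where `l = ⌈2 log₂ N⌉`,

and `l = 0` suffices if the address is a function of `i`, `j` and the random bits only. So the
number `s` of joint words is `Ω~(N ^ 2 / T ^ 2)` for query time `T`, and `Ω~(N ^ 2)` for
polylogarithmic query time.

`TwoDimensionalTable` (a starting result for this problem) treats tables in which the row depends on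
the first set and the first half and the column on the second set and the second half; here the
address may depend on both indices and the first half jointly, so that neither model contains the
other. `MP_e016b3_lc.AdaptiveJointProbe` is the corresponding theorem for 3SUM-Indexing.
-/

namespace Pool.Agent.Results.MP_f326ae_lc.AdaptiveJointProbe

open Pool.Agent.Y516.OJ

/-- For all `N`, `w`, `b`, `l` there are `k` and `u` such that every random data structure for
families of `2 k` subsets of a universe with `u` elements, of total size at most `N`, with `s` joint
cells of `w` bits, one joint probe (the address is a function of the query and of the first half of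
the family) and protocols of `b` bits, which decides emptiness of the intersections, satisfies
`N ^ 2 ≤ 10 ^ 20 * (b + l) ^ 2 * w ^ 3 * s`, if `N ^ 2 ≤ 2 ^ l` or if the addresses do not depend
on the family. -/
theorem result (N w b l : ℕ) (hw : 1 ≤ w) (hb : 1 ≤ b) :
    ∃ k u : ℕ, u ≤ 2 * 10 ^ 14 * (b + l) ^ 2 * w ^ 2 ∧
      ∀ (s : ℕ) (Ω : Type) [Fintype Ω] (p : Ω → ℝ) (D : Ω → PairADS k u w s),
        (N ^ 2 ≤ 2 ^ l ∨ ∀ ω i j F F', (D ω).addr i j F = (D ω).addr i j F') →
        SolvesPairA b N p D → N ^ 2 ≤ 10 ^ 20 * (b + l) ^ 2 * w ^ 3 * s :=
  pair_ad coreThm adThm2 N w b l hw hb

end Pool.Agent.Results.MP_f326ae_lc.AdaptiveJointProbe
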