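import Pool.Agent.V11231.SIF.Fin

/-!
# SetIntersection: data structures with unreliable negations

The definitions used in the statement are in `Pool/Agent/V11231/SIF/Defs.lean` (`LiteralDS`: data
structures for families of sets, given by their membership bits, whose cells contain nondecreasing
real functions of these bits and of their negations, with adaptive queries; `reported`, `probes`,
`common`, `total`) and in `Pool/Agent/V11231/SIF/Fin.lean` (`Tolerates`: query time `a (T + op)`,
and the probabilities of errors with and without faults). They use `literals` from
`Pool/Agent/V11231/FLT/Slot.lean`.

Idea of the proof. For the lower bound for monotone data structures of the starting library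
(`H525R4`), replace an element `e` of the set number `i` by the faulty positions in a class of
`5 D ^ 2` elements. If `e` is in two sets then these have a common element in the class, except with
small probability, and the expected size of the large intersection is `5` times the size of the
small one. On such families faults only concern bits that are `1`, so for fixed faults one gets a
monotone data structure for the small family.
-/

set_option autoImplicit false

namespace Pool.Agent.Results.MP_f326ae_lc.FaultyNegations

open Pool.Agent.V11231.SIF

/-- (1) Let `D, a, T ≥ 1` and `N ≥ 500 D`. There are `m` and `u` with `m u ≤ N D` such that each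
random data structure for families of `m` subsets of a universe with `u` elements whose `s` cells
are computed from the membership bits and their negations, which tolerates faults of probability
`1 / D` in the negated bits for families of total size at most `N`, with query time `a (T + op)`,
has `N ^ 2 ≤ 10 ^ 14 D ^ 2 a ^ 2 T s (log₂ (5 N)) ^ 3`.

(2) With reliable negations two cells suffice for all families. -/
theorem result :
    (∀ (N D : ℕ) (a T : ℝ), 1 ≤ D → 500 * D ≤ N → 1 ≤ a → 1 ≤ T →
      ∃ m u : ℕ, m * u ≤ N * D ∧ ∀ (s : ℕ) (R : Type) [Finite R] [Nonempty R]
        (C : R → LiteralDS m u s), Tolerates D N a T R C →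
          (N : ℝ) ^ 2 ≤ 10 ^ 14 * D ^ 2 * a ^ 2 * T * s * Real.logb 2 (5 * N) ^ 3) ∧
    (∀ m u : ℕ, ∃ C : LiteralDS m u 2,
      (∀ (x : Fin m × Fin u → Bool) (Z : Set (Fin m × Fin u)) (i j : Fin m),
        C.probes x Z i j ≤ 2) ∧
      ∀ (x : Fin m × Fin u → Bool) (i j : Fin m), C.reported x ∅ i j = common x i j) :=
  ⟨fun N D a T hD hN ha hT => inter_fault N D a T hD hN ha hT, two_cells⟩

end Pool.Agent.Results.MP_f326ae_lc.FaultyNegations
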